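import Pool.Agent.Helper33K9.HP.LMC

set_option autoImplicit false

/-! # Reduction of the motivic monodromy conjecture at the origin to explicit cubic polynomials

To every `f ≠ 0` in `ℂ[x_1, …, x_n]` with `f(0) = 0` we find a polynomial

  `g = h(x) + ∑_k v_k (x_{n + k} - x_{a k} x_{b k})`  (`k < r`, `a k, b k < n + k`, `deg h ≤ 2`, `h(0) = 0`)

of degree at most three in the variables `x_i`, `i < n + r`, and `v_k`, `k < r` (`cubicH`), such that

* `f` and `g` have the same monodromy eigenvalues (at points in each neighbourhood of the origin);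
* the local motivic zeta functions `Z_f`, `Z_g ∈ 𝓜_ℂ[[T]]` at the origin (`zetaO`) are related (`ZRel`) by

    `(1 - 𝕃⁻¹ T)(1 - 𝕃^(-r) T) Z_g(T) = 𝕃^(-r) (1 - T)(1 - 𝕃^(-r-1) T) Z_f(𝕃^(-r) T) + 𝕃^(-n-2r) (1 - 𝕃⁻¹)(1 - 𝕃^(-r)) T²`;

* if the statement of Q1 holds for `f`, then it holds for `g` (`MMC`), and the statement of Q1 without
  the positivity of the numbers `σ` in the pairs `(m, σ) ∈ S` (`WMMC`) holds for `f` if and only if it
  holds for `g`. So if Q1 is true for these cubic polynomials, then it is true for all `f`, up to the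
  positivity of the numbers `σ`.

The polynomial `g` is obtained from `f + ∑_{k < r} u_k v_k` by polynomial automorphisms which fix the
origin. The zeta function is computed with the jets, in the Grothendieck ring of complex varieties
localised at `𝕃`, without resolution; the eigenvalues are compared with functional equations of
Bernstein and Sato, in both directions (`eig0_hyp`). -/

namespace Pool.Agent.Results.MP_9321be_ag.CubicReductionLocal

open MvPolynomial Pool.Agent.W428.MOT Pool.Agent.TH192.MT Pool.Agent.Helper33K9.HP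

/-- **Reduction of the motivic monodromy conjecture at the origin to the cubic polynomials
`cubicH h a b`.** -/
theorem result (n : ℕ) (f : MvPolynomial (Fin n) ℂ) (hf : f ≠ 0) (h0 : constantCoeff f = 0) :
    ∃ (r : ℕ) (h : MvPolynomial (Fin (n + r)) ℂ) (a b : Fin r → Fin (n + r)),
      h.totalDegree ≤ 2 ∧ constantCoeff h = 0 ∧ (∀ k, (a k : ℕ) < n + k) ∧
      (∀ k, (b k : ℕ) < n + k) ∧ cubicH h a b ≠ 0 ∧
      (∀ z, Eig0 (cubicH h a b) z ↔ Eig0 f z) ∧
      ZRel n r (zetaO f) (zetaO (cubicH h a b)) ∧
      (MMC f → MMC (cubicH h a b)) ∧ (WMMC (cubicH h a b) ↔ WMMC f) := by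
  obtain ⟨r, h, a, b, h1, h2, h3, h4, h5, h6, h7, h8, h9⟩ := exists_cubicH n f hf h0
  rw [Fintype.card_fin] at h7
  exact ⟨r, h, a, b, h1, h2, h3, h4, h5, h6, h7, h8, h9⟩

end Pool.Agent.Results.MP_9321be_ag.CubicReductionLocal
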