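import Pool.Agent.Helper33K9.RS.O

set_option autoImplicit false

/-! # The motivic monodromy conjecture for the nodes of read-once formulas

Let `f` be a polynomial given by a read-once formula over the class `Cls` (`Fml Ω f S`): the leaves of
the formula are polynomials from the class `Cls` in separate blocks of variables, the operations are
sums, products, arbitrary polynomials `φ ∈ ℂ[t]` in one variable (and isomorphisms of polynomial rings
may be applied at all stages), and `S` is the set of the polynomials given by the subformulas (the
nodes, `f` included). Here `Cls` is the smallest class which contains all polynomials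
`q(x, u_1, …, u_n)` of degree at most two in `u_1, …, u_n` and of any degree in `x`, with `g_k(v_k)` all
`q(x, u_1, …, u_n) + ∑_k a_k(x) g_k(v_k)`, `a_k ∈ ℂ[x]`, and with `f(x)`, `g(y)` the sum `f(x) + g(y)`, and
which is closed under isomorphisms.

Let `h ≠ 0` be a product of polynomials `g - γ`, `g ∈ S`, `γ ∈ ℂ` (`NodeProd S`). For example `h` may be
`f = ((x ^ 3 + y ^ 4) ^ 2 z + (u ^ 5 + v ^ 2) (w ^ 3 + 1) ^ 4) ^ 3 + t ^ 7` or a product such as
`(x ^ 3 + y ^ 4) ^ 5 (u ^ 5 + v ^ 2) ^ 2 ((x ^ 3 + y ^ 4) ^ 2 z + (u ^ 5 + v ^ 2) (w ^ 3 + 1) ^ 4) f ^ 3`. The class of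
these `h` is closed under multiplication (for a fixed formula); the factors have many variables in
common, `h` is in general degenerate with respect to its Newton polyhedron in all coordinates, not
reduced, and its singularities are not isolated.

For all points `p` with `h(p) = 0` we prove the motivic monodromy conjecture for the germ of `h` at `p`,
in its strong form (`SMMC`): there is a finite set of pairs `(a, b)` of integers, `b > 0`, such that the
local motivic zeta function of `h` at `p` lies in the ring generated over `𝓜_ℂ` by `T` and the
`1 / (1 - 𝕃 ^ a T ^ b)`, and `a / b` is a root of the local Bernstein-Sato polynomial of `h` at `p`. So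
`a < 0` by the theorem of Kashiwara, and by the theorem of Malgrange and Kashiwara `exp(2πi a / b)` is a
monodromy eigenvalue of `h` at points of `h = 0` arbitrarily close to `p`: this is Q1 for `h(p + x)`.

The proof. (1) The property `SM g`: for all `κ` the reduced property holds for
`g + ∑_{j ∈ κ} u_j v_j`: `(1 - 𝕃⁻¹ T) Z(T)` is in the ring generated by `T` and the
`1 / (1 - 𝕃 ^ a T ^ b)` with `a / b` a root of every `c` with `(s + 1) c(s) g ^ s = P(s) g ^ (s + 1)`, for the
zeta functions `Z` of the jets with angular components in any constructible set of nonzero numbers.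
With the classes of the jets of `g + u v`, `g + u v + u' v'` one has
`𝕃 ^ 3 (1 - 𝕃⁻¹ T) Z_g(T) = (𝕃 ^ 2 + 𝕃) (1 - T) Z_{g + u v}(𝕃 T) - (1 - 𝕃 T) Z_{g + u v + u' v'}(𝕃 ^ 2 T)`,
and a functional equation of `g` with `(s + 1) c(s)` gives one of `g + u v` with `(s + 1) c(s + 1)`. So
`SM (g + u v)` implies `SM g`. (2) `SM` is invariant under formal changes of coordinates and under
multiplication with units. (3) `SM` holds if the exponents are affinely independent. (4) In suitable
formal coordinates `y` at `p` the differences `w_v = f_v - f_v(p)`, `v` a node, are given by a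
triangular system `w_v = ∑_j (monomials in y and the w of the children of v)`, which is weighted
homogeneous with positive weight of `w_v`; the units which come from translations are absorbed by the
weights. `h` is a unit times `∏_v w_v ^ (e_v)`. The polynomial
`∏_v z_v ^ (e_v) + ∑_v y'_v (z_v - ∑ …)` has affinely independent exponents, and in formal coordinates it
is a unit times `h + ∑_v z_v y'_v`. -/

namespace Pool.Agent.Results.MP_9321be_ag.ReadOnceNodes

open MvPolynomial Pool.Agent.Helper33K9.FQ Pool.Agent.Helper33K9.RO Pool.Agent.Helper33K9.RS

/-- **The motivic monodromy conjecture at all points for all products of nodes of read-once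
formulas.** `trn p h = h(p + x)`. `SMMC (trn p h)`: there is a finite set `S` of pairs `(a, b)` of
integers, `b > 0`, such that `a / b` is a root of every `b(s)` which satisfies a functional equation for
`h(p + x)` at the origin with formal power series coefficients, that is, of the local Bernstein-Sato
polynomial, and the local motivic zeta function `zetaO (trn p h)` of the problem is in
`𝓜_ℂ[T, 1 / (1 - 𝕃 ^ a T ^ b)]`, `(a, b) ∈ S`. -/
theorem result (Ω : Type) [Fintype Ω] (f : MvPolynomial Ω ℂ) (S : Set (MvPolynomial Ω ℂ))
    (hf : Fml Ω f S) (h : MvPolynomial Ω ℂ) (hh : h ∈ NodeProd S) (h0 : h ≠ 0)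
    (p : Ω → ℂ) (hp : eval p h = 0) : SMMC (trn p h) :=
  fml_smmc hf hh h0 p hp

end Pool.Agent.Results.MP_9321be_ag.ReadOnceNodes
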