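import Pool.Agent.Helper33K9.RS.Si

set_option autoImplicit false

/-! # The motivic monodromy conjecture for stably nondegenerate germs

We call the germ at the origin of a polynomial `g(x)`, `g ≠ 0`, `g(0) = 0`, stably nondegenerate if for
some `r` the polynomial `g(x) + z_1 y_1 + ⋯ + z_r y_r` becomes, in suitable formal coordinates and up to
multiplication with a unit, a polynomial `G = ∑_j c_j X ^ (v j)` which is nondegenerate with respect to the
compact faces of its Newton polyhedron (the usual local nondegeneracy). On the Newton polyhedron of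
`G` we need the condition `HypVL` of the starting result `CompactFacesVertices`: every candidate pole
`-|a| / N_a` of a facet with primitive normal vector `a` is an integer, or it agrees modulo integers
with the one of a facet which contains a suitable simplex which is not of type `B1`, or at every
vertex the facets with this candidate pole are simplices or `B1` in a common direction. All simplicial
Newton polyhedra are allowed. `StablyND g` is this property.

(1) For all these `g` there is a finite set of pairs `(a, b)` of integers, `b > 0`, such that the local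
motivic zeta function of `g` at the origin lies in the ring generated over `𝓜_ℂ` by `T` and the
`1 / (1 - 𝕃 ^ a T ^ b)`, and `exp(2πi a / b)` is a monodromy eigenvalue of `g` at points of `g = 0`
arbitrarily close to the origin.

(2) Let the germ of `g` be, in formal coordinates and up to a unit, the restriction `R(x, w(x))` of a
polynomial `R(x, z) ∈ ℂ[x, z_1, …, z_r]` without linear terms `c z_j` to a smooth formal germ `z = w(x)`
defined by polynomials `l_1(x, z) = … = l_r(x, z) = 0`, `det (∂ l_i / ∂ z_j)(0) ≠ 0`. If the polynomial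
`G = R(x, z) + ∑_i y_i l_i(x, z)` is nondegenerate with respect to the compact faces of its Newton
polyhedron and satisfies `HypVL`, then `g` satisfies `StablyND`, so that (1) holds for `g`.

For `r = 0` this is the starting result `CompactFacesVertices`, in formal coordinates and up to units.
For `r > 0` the germs are in general degenerate in all coordinates: compositions
`g = R(x, p_1(x), …, p_r(x))`, `l_i = z_i - p_i(x)`, and iterated compositions `z_i = p_i(x, z_1, …, z_(i-1))`.
For example `g = (x_1 ^ 2 + x_2 ^ 3 + x_3 ^ 5) ^ 2 + x_1 ^ 5 + x_2 ^ 7 + x_3 ^ 11` with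
`G = z ^ 2 + x_1 ^ 5 + x_2 ^ 7 + x_3 ^ 11 + y (z - x_1 ^ 2 - x_2 ^ 3 - x_3 ^ 5)`, whose Newton polyhedron is
simplicial (8 vertices in dimension 5, so that `G` is not a sum of monomials with affinely independent
exponents); if only vertices occur in `G`, as here, nondegeneracy is automatic.

The proof: the theorem `WMMC (g + u v) ↔ WMMC g` (the local zeta functions are related by
`(1 - 𝕃⁻¹ T)(1 - 𝕃⁻¹ T) Z_{g + u v}(T) = 𝕃⁻¹ (1 - T)(1 - 𝕃⁻² T) Z_g(𝕃⁻¹ T) + 𝕃 ^ (-n-2) (1 - 𝕃⁻¹) ^ 2 T ^ 2`,
from the classes of the jets, and the local functional equations of `g` and `g + u v` by a shift),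
the invariance of the zeta functions and of the local functional equations under formal changes of
coordinates and multiplication with units, and the starting result for `G`. In (2) one has
`R(x, z) + ∑ y_i l_i(x, z) = U · (g(x) + ∑_j z'_j y'_j)` in the formal coordinates `x'`, `z'_j = z_j - w_j(x)`,
`y'_j = U⁻¹ (∑_i y_i P_{i,j} + K_j)`, where `l_i = ∑_j (z_j - w_j) P_{i,j}` and
`R(x, z) - R(x, w) = ∑_j (z_j - w_j) K_j`. -/

namespace Pool.Agent.Results.MP_9321be_ag.StablyNondegenerate

open MvPolynomial Pool.Agent.Helper33K9.HP Pool.Agent.Helper33K9.FQ Pool.Agent.Helper33K9.RO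
  Pool.Agent.Helper33K9.RS

open Pool.Agent.TH216.HD (Spans)
open Pool.Agent.TH216.HDNL (HypVL)
open Pool.Agent.Y229.CF (NondegC)

/-- **The motivic monodromy conjecture for stably nondegenerate germs.** First part: the conjecture
for all `g` which satisfy `StablyND`. Second part: restrictions to smooth complete intersections
satisfy `StablyND`. The variables `x` are indexed by `σ`; `y i` are the formal coordinates
(`Coords`), `u` is the unit, `z = w(x)` the smooth germ, `stabL R l = R + ∑_i y_i l_i`, `e` an enumeration
of the variables `x, z, y`. `NondegC v c` says that for every `w ∈ ℝ ^ n` with positive coordinates the sum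
of the terms `c_j X ^ (v j)` on which `⟨w, v j⟩` is minimal and its derivatives `X_i ∂_i` have no common
zero in `(ℂ \ 0) ^ n`; `Spans v V` that all `v j` are in `conv {v k, k ∈ V} + ℝ_{≥ 0} ^ n`. -/
theorem result :
    (∀ (σ : Type) [Fintype σ] (g : MvPolynomial σ ℂ), g ≠ 0 → constantCoeff g = 0 →
      StablyND g → WMMC g) ∧
    ∀ (σ : Type) [Fintype σ] (g : MvPolynomial σ ℂ) (r : ℕ) (R : MvPolynomial (σ ⊕ Fin r) ℂ)
      (l : Fin r → MvPolynomial (σ ⊕ Fin r) ℂ) (u : MvPowerSeries σ ℂ)
      (y : σ → MvPowerSeries σ ℂ) (w : Fin r → MvPowerSeries σ ℂ),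
      MvPowerSeries.constantCoeff u ≠ 0 → Coords y →
      (∀ j, MvPowerSeries.constantCoeff (w j) = 0) →
      (∀ i, aeval (Sum.elim MvPowerSeries.X w) (l i) = 0) →
      IsUnit (Matrix.of fun i j =>
        MvPolynomial.coeff (Finsupp.single (Sum.inr j) 1) (l i)).det →
      (∀ j, MvPolynomial.coeff (Finsupp.single (Sum.inr j) 1) R = 0) →
      u * aeval y g = aeval (Sum.elim MvPowerSeries.X w) R →
      ∀ (n k : ℕ) (e : (σ ⊕ Fin r) ⊕ Fin r ≃ Fin n) (v : Fin k → Fin n → ℕ) (c : Fin k → ℂ)
        (V : Finset (Fin k)), 0 < k → Function.Injective v → (∀ j, v j ≠ 0) → (∀ j, c j ≠ 0) →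
      NondegC v c → Spans v V → HypVL v V →
      rename e (stabL R l) = ∑ j, C (c j) * ∏ i, X i ^ v j i → StablyND g :=
  ⟨fun _ _ _ hg hg0 h => stablyND_wmmc hg hg0 h,
    fun _ _ g r R l u y w hu hy hw hl hJ hR hgR _ _ e v c V hk hv hv0 hc hnd hV hL hG =>
      stablyND_of g r R l u y w hu hy hw hl hJ hR hgR e v c V hk hv hv0 hc hnd hV hL hG⟩

end Pool.Agent.Results.MP_9321be_ag.StablyNondegenerate
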