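import Pool.Agent.Helper33K9.RS.O

set_option autoImplicit false

/-! # The motivic monodromy conjecture for stably sparse germs

Let `g ∈ ℂ[x_1, …, x_N]`, `g ≠ 0`, `g(0) = 0`. We call the germ of `g` at the origin stably sparse if,
in suitable formal coordinates at the origin and up to multiplication with a unit, it is the
restriction `R(x, w(x))` of a polynomial `R(x, z) ∈ ℂ[x, z_1, …, z_r]` to a smooth formal germ
`z = w(x)` defined by polynomials `l_1(x, z) = … = l_r(x, z) = 0`, `det (∂ l_i / ∂ z_j)(0) ≠ 0`, where

* `R` has no linear terms `c z_j`,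
* the exponents of the polynomial `R(x, z) + ∑_i y_i l_i(x, z)` in the variables `x, z, y` are affinely
  independent.

For `r = 0` this says that `g` is in formal coordinates and up to a unit a sum of monomials with
affinely independent exponents. For `l_i = z_i - E_i(x, z_1, …, z_(i-1))` the germs are towers of sparse
polynomials, `g = R(x, z_1, …, z_r)`, `z_i = E_i(x, z_1, …, z_(i-1))`, in which intermediate results and
variables may be used several times, as in `(x ^ 2 + y ^ 3) ^ 5 + x y (x ^ 2 + y ^ 3)` or
`((x ^ 2 + y ^ 3) ^ 3 u ^ 2 + v ^ 5) ^ 4 + (x ^ 2 + y ^ 3) ^ 9 u v`; the condition is that all relations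
`∑_{M ∈ supp R} α_M M + ∑_i ∑_{M ∈ supp E_i} γ_(i, M) (M - e_(z_i)) = 0` with `∑_M α_M = 0` are trivial.

For every stably sparse germ we prove the motivic monodromy conjecture in its strong form (`SMMC`):
there is a finite set of pairs `(a, b)` of integers, `b > 0`, such that the local motivic zeta
function of `g` at the origin lies in the ring generated over `𝓜_ℂ` by `T` and the
`1 / (1 - 𝕃 ^ a T ^ b)`, and `a / b` is a root of the local Bernstein-Sato polynomial of `g`. So `a < 0` by
the theorem of Kashiwara, and by the theorem of Malgrange and Kashiwara `exp(2πi a / b)` is a monodromy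
eigenvalue of `g` at points of `g = 0` arbitrarily close to the origin: this is Q1 for `g`.

The proof: in formal coordinates `R(x, z) + ∑_i y_i l_i(x, z)` is `u (g(x) + ∑_j z_j y_j)`, `u` a unit.
The reduced property `SM` (for `g + ∑_{j ∈ κ} u_j v_j`, all `κ`, `(1 - 𝕃⁻¹ T) Z(T)` is in the ring of the
`1 / (1 - 𝕃 ^ a T ^ b)` with `a / b` a root of every `c` with `(s + 1) c(s) g ^ s = P(s) g ^ (s + 1)`, for the
zeta functions `Z` of the jets with angular components in any constructible set of nonzero numbers) is
invariant under formal changes of coordinates and multiplication with units; it holds for affinely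
independent exponents; and `SM (g + ∑_j z_j y_j)` implies `SM g`, by
`𝕃 ^ 3 (1 - 𝕃⁻¹ T) Z_g(T) = (𝕃 ^ 2 + 𝕃) (1 - T) Z_{g + u v}(𝕃 T) - (1 - 𝕃 T) Z_{g + u v + u' v'}(𝕃 ^ 2 T)`
and the shift of the functional equations. -/

namespace Pool.Agent.Results.MP_9321be_ag.StablySparseStrong

open MvPolynomial Pool.Agent.Helper33K9.FQ Pool.Agent.Helper33K9.RO Pool.Agent.Helper33K9.RS

/-- **The motivic monodromy conjecture for stably sparse germs, in its strong form.** The variables
`x` are indexed by `σ`; `y i` are the formal coordinates (`Coords`), `u` is the unit, `z = w(x)` the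
smooth germ, `stabL R l = R + ∑_i y_i l_i`. `SMMC g`: there is a finite set `S` of pairs `(a, b)` of
integers, `b > 0`, such that `a / b` is a root of every `b(s)` which satisfies a functional equation for
`g` at the origin with formal power series coefficients, that is, of the local Bernstein-Sato
polynomial, and the local motivic zeta function `zetaO g` of the problem is in
`𝓜_ℂ[T, 1 / (1 - 𝕃 ^ a T ^ b)]`, `(a, b) ∈ S`. -/
theorem result (σ : Type) [Fintype σ] (g : MvPolynomial σ ℂ) (hg : g ≠ 0)
    (hg0 : constantCoeff g = 0) (r : ℕ) (R : MvPolynomial (σ ⊕ Fin r) ℂ)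
    (l : Fin r → MvPolynomial (σ ⊕ Fin r) ℂ) (u : MvPowerSeries σ ℂ)
    (y : σ → MvPowerSeries σ ℂ) (w : Fin r → MvPowerSeries σ ℂ)
    (hu : MvPowerSeries.constantCoeff u ≠ 0) (hy : Coords y)
    (hw : ∀ j, MvPowerSeries.constantCoeff (w j) = 0)
    (hl : ∀ i, aeval (Sum.elim MvPowerSeries.X w) (l i) = 0)
    (hJ : IsUnit (Matrix.of fun i j =>
      MvPolynomial.coeff (Finsupp.single (Sum.inr j) 1) (l i)).det)
    (hR : ∀ j, MvPolynomial.coeff (Finsupp.single (Sum.inr j) 1) R = 0)
    (hgR : u * aeval y g = aeval (Sum.elim MvPowerSeries.X w) R)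
    (hind : AffineIndependent ℚ (fun (m : (stabL R l).support) (v : (σ ⊕ Fin r) ⊕ Fin r) =>
      ((m : (σ ⊕ Fin r) ⊕ Fin r →₀ ℕ) v : ℚ))) : SMMC g :=
  stab_smmc g r R l u y w hg hg0 hu hy hw hl hJ hR hgR hind

end Pool.Agent.Results.MP_9321be_ag.StablySparseStrong
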